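import Pool.Agent.K3h75.NW.StmN
import Pool.Agent.K3h49.ND.G0

/-!
# Project NW (helper75, MP_6a3dac_ag), brick G0W: from `GoodVecW` to prime ideals (helper77)
-/

set_option autoImplicit false

namespace Pool.Agent.K3h77.NW

open MvPolynomial Pool.Agent.R187.WC Pool.Agent.K3h75.ND Pool.Agent.K3h75.NW NumberField
open Pool.Agent.K3h49.ND (eval_class)

theorem map_wform {N e m : ℕ} {R S : Type} [CommRing R] [CommRing S] (φ : R →+* S)
    (a : CoefW N e m → R) : map φ (wform a) = wform fun s => φ (a s) := by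
  unfold wform
  rw [map_add, map_pow, map_X, map_sum]
  congr 1
  refine Finset.sum_congr rfl fun s _ => ?_
  rw [map_monomial]

theorem wform_hom {N e m : ℕ} {R : Type} [CommRing R] (a : CoefW N e m → R) :
    (wform a).IsWeightedHomogeneous (wt e) (m * e) := by
  classical
  unfold wform
  refine IsWeightedHomogeneous.add ?_ ?_
  · have h1 : (X none : MvPolynomial (Option (Fin (N + 1))) R).IsWeightedHomogeneous (wt e) e :=
      isWeightedHomogeneous_X R (wt e) none
    have h2 := h1.pow m
    rwa [smul_eq_mul] at h2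
  · exact IsWeightedHomogeneous.sum _ _ _ fun s _ =>
      isWeightedHomogeneous_monomial _ _ _ s.2.1

/-- evaluation of the dehomogenisation at the classes of the variables -/
theorem eval_dehW {ι R k : Type} [CommRing R] [CommRing k] [DecidableEq ι] (s : ι)
    (ψ : MvPolynomial (Option {j : ι // j ≠ s}) R →+* k) (P : MvPolynomial (Option ι) R) :
    eval (fun o => ψ (dehW s (X o : MvPolynomial (Option ι) R))) (map (ψ.comp C) P) =
      ψ (dehW s P) := by
  rw [eval_map]
  induction P using MvPolynomial.induction_on with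
  | C a => simp [dehW]
  | add p q hp hq =>
    rw [eval₂_add, hp, hq]
    simp only [dehW, map_add]
  | mul_X p i hp =>
    rw [eval₂_mul, hp, eval₂_X]
    simp only [dehW, map_mul]

theorem smooth {n e m : ℕ} {O : Type} [CommRing O] {a : CoefW n e m → O} (ha : GoodVecW a)
    (K : Type) [Field K] [NumberField K] (θ : O →+* 𝓞 K) :
    SmoothW (map (algebraMap (𝓞 K) K) (wform fun s => θ (a s))) := by
  intro i
  rw [map_wform, Ideal.radical_eq_sInf, Submodule.mem_sInf]
  rintro P ⟨hP, hPr⟩
  by_contra hi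
  have := hPr
  let B := MvPolynomial (Option (Fin (n + 1))) K ⧸ P
  let k := FractionRing B
  let ψ : MvPolynomial (Option (Fin (n + 1))) K →+* k :=
    (algebraMap B k).comp (Ideal.Quotient.mk P)
  have hψ : ∀ Q, ψ Q = 0 → Q ∈ P := by
    intro Q hQ
    have h1 : algebraMap B k (Ideal.Quotient.mk P Q) = 0 := hQ
    rw [map_eq_zero_iff _ (IsFractionRing.injective B k)] at h1
    exact Ideal.Quotient.eq_zero_iff_mem.1 h1
  have hψ' : ∀ Q ∈ P, ψ Q = 0 := by
    intro Q hQ
    change algebraMap B k (Ideal.Quotient.mk P Q) = 0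
    rw [Ideal.Quotient.eq_zero_iff_mem.2 hQ, map_zero]
  have : CharZero k := charZero_of_injective_ringHom (ψ.comp C).injective
  let φ : O →+* k := (ψ.comp C).comp ((algebraMap (𝓞 K) K).comp θ)
  have h1 : wform (fun s => φ (a s)) =
      map (ψ.comp C) (wform fun s => algebraMap (𝓞 K) K (θ (a s))) := by
    rw [map_wform]
    rfl
  have hx := ha.1 k φ (fun i => ψ (X i)) (fun j => by
    rw [h1, pderiv_map, eval_class]
    exact hψ' _ (hP (Ideal.subset_span ⟨j, rfl⟩)))
  exact hi (hψ _ (hx i))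

/-- the variables of the chart -/
def chartEquiv {ι : Type} (s : ι) : Option {j : ι // j ≠ s} ≃ {j : Option ι // j ≠ some s} where
  toFun o := ⟨o.map Subtype.val, by
    rcases o with _ | j
    · simp
    · intro h
      exact j.2 (Option.some.inj h)⟩
  invFun o := match o with
    | ⟨none, _⟩ => none
    | ⟨some j, h⟩ => some ⟨j, fun h' => h (by rw [h'])⟩
  left_inv o := by
    rcases o with _ | j <;> rfl
  right_inv o := by
    rcases o with ⟨_ | j, h⟩ <;> rfl

theorem nodal {n e m : ℕ} {O : Type} [CommRing O] {a : CoefW n e m → O} (ha : GoodVecW a)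
    (K : Type) [Field K] [NumberField K] (θ : O →+* 𝓞 K) (𝔭 : Ideal (𝓞 K)) (h0 : 𝔭 ≠ ⊥) :
    NodW 𝔭 (wform fun s => θ (a s)) := by
  intro s Q hQ hC hdeh
  by_contra hcon
  rw [not_or, not_exists, not_not] at hcon
  obtain ⟨hder, hdt⟩ := hcon
  have hder' : ∀ j, pderiv j (dehW s (wform fun s => θ (a s))) ∈ Q := by
    intro j
    by_contra h
    exact hder j h
  have := hQ
  let B := MvPolynomial (Option {j : Fin (n + 1) // j ≠ s}) (𝓞 K) ⧸ Q
  let k := FractionRing B
  let ψ : MvPolynomial (Option {j : Fin (n + 1) // j ≠ s}) (𝓞 K) →+* k :=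
    (algebraMap B k).comp (Ideal.Quotient.mk Q)
  have hψ' : ∀ P ∈ Q, ψ P = 0 := by
    intro P hP
    change algebraMap B k (Ideal.Quotient.mk Q P) = 0
    rw [Ideal.Quotient.eq_zero_iff_mem.2 hP, map_zero]
  -- the characteristic of `k`
  obtain ⟨p, hp⟩ := CharP.exists k
  have hpp : p.Prime := by
    rcases CharP.char_is_prime_or_zero k p with h | h
    · exact h
    · subst h
      have : CharZero k := CharP.charP_to_charZero k
      exfalso
      have h1 : ((Ideal.absNorm 𝔭 : ℕ) : 𝓞 K) ∈ 𝔭 := Ideal.absNorm_mem 𝔭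
      have h2 : Ideal.absNorm 𝔭 ≠ 0 := by
        rw [Ne, Ideal.absNorm_eq_zero_iff]
        exact h0
      have h3 : ψ (C ((Ideal.absNorm 𝔭 : ℕ) : 𝓞 K)) = 0 := hψ' _ ((hC _).2 h1)
      rw [map_natCast C, map_natCast] at h3
      exact h2 (Nat.cast_eq_zero.1 h3)
  let φ : O →+* k := (ψ.comp C).comp θ
  have hform : wform (fun s => φ (a s)) =
      map (ψ.comp C) (wform fun s => θ (a s)) := by
    rw [map_wform]
    rfl
  let x : Option (Fin (n + 1)) → k :=
    fun i => ψ (dehW s (X i : MvPolynomial (Option (Fin (n + 1))) (𝓞 K)))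
  have hxs : x (some s) = 1 := by
    change ψ (dehW s (X (some s))) = 1
    unfold dehW
    rw [aeval_X, tauW_self, map_one]
  have hF : eval x (wform fun s => φ (a s)) = 0 := by
    rw [hform, eval_dehW]
    exact hψ' _ hdeh
  have hall : ∀ i, eval x (pderiv i (wform fun s => φ (a s))) = 0 := by
    intro i
    rw [hform, pderiv_map, eval_dehW]
    exact hψ' _ (all_pderiv_memW e _ (m * e) (wform_hom _) s Q hdeh hder' i)
  refine ha.2 p hpp k φ x s hxs hF hall ?_
  have h1 : ψ (hess (dehW s (wform fun s => θ (a s)))).det = 0 := hψ' _ hdt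
  rw [RingHom.map_det] at h1
  unfold hdetW
  rw [← Matrix.det_submatrix_equiv_self (chartEquiv s), ← h1]
  congr 1
  ext i j
  simp only [Matrix.submatrix_apply, Matrix.of_apply, RingHom.mapMatrix_apply, Matrix.map_apply,
    hess]
  rw [pderiv_dehW s j, pderiv_dehW s i, ← eval_dehW s ψ, hform, pderiv_map, pderiv_map]
  rfl

/-- **Brick G0W.** -/
theorem t_G0W : S_G0W := fun _ _ _ _ _ _ _ _ ha E _ _ θ =>
  ⟨smooth ha E θ, fun 𝔭 _ h0 => nodal ha E θ 𝔭 h0⟩

end Pool.Agent.K3h77.NW
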